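import Pool.Agent.N821.CS.Stm

/-!
# Project CS (helper821), part CON (helper897): strong continuity, semigroup law and separability of the dilation
-/

set_option autoImplicit false

namespace Pool.Agent.N897.CS

open Pool.Agent.N821.CS
open scoped InnerProductSpace NNReal Topology
open Filter TopologicalSpace

universe u

theorem t (h : S_GNS.{u}) : S_DIL.{u} := by
  intro H _ _ _ T
  obtain ⟨K, iK1, iK2, iK3, V, δ, hV, hVδ, hker, hspan⟩ := h H T
  have hdense : Dense (Submodule.span ℂ (⋃ s, Set.range (δ s)) : Set K) :=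
    Submodule.dense_iff_topologicalClosure_eq_top.2 hspan
  have hV0 : V 0 = 1 := by
    refine ContinuousLinearMap.ext_on hdense ?_
    intro k hk
    rw [Set.mem_iUnion] at hk
    obtain ⟨s, x, rfl⟩ := hk
    rw [hVδ, add_zero]
    rfl
  have hVadd : ∀ s t, V (s + t) = V s * V t := by
    intro s t
    refine ContinuousLinearMap.ext_on hdense ?_
    intro k hk
    rw [Set.mem_iUnion] at hk
    obtain ⟨r, x, rfl⟩ := hk
    rw [hVδ]
    change _ = V s (V t (δ r x))
    rw [hVδ, hVδ]
    congr 2
    ring
  -- continuity of `δ s x` in `s`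
  have hφ : ∀ (x : H) (s t : ℝ≥0), (ker T s t x x).re = (⟪x, T.op ((t - s) + (s - t)) x⟫_ℂ).re := by
    intro x s t
    unfold Pool.Agent.N821.CS.ker
    by_cases hst : s ≤ t
    · rw [if_pos hst, tsub_eq_zero_of_le hst, add_zero]
    · rw [if_neg hst, tsub_eq_zero_of_le (le_of_not_ge hst), zero_add]
      rw [← inner_conj_symm, Complex.conj_re]
  have hsq : ∀ (x : H) (s t : ℝ≥0), ‖δ s x - δ t x‖ ^ 2 =
      2 * ‖x‖ ^ 2 - 2 * (⟪x, T.op ((t - s) + (s - t)) x⟫_ℂ).re := by
    intro x s t
    have h1 := @norm_sub_sq ℂ K _ _ _ (δ s x) (δ t x)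
    rw [h1, (δ s).norm_map, (δ t).norm_map, hker, ← hφ]
    change ‖x‖ ^ 2 - 2 * (ker T s t x x).re + ‖x‖ ^ 2 = _
    ring
  have hδc : ∀ x : H, Continuous fun s => δ s x := by
    intro x
    rw [continuous_iff_continuousAt]
    intro s₀
    rw [ContinuousAt, tendsto_iff_norm_sub_tendsto_zero]
    have h1 : Continuous fun s : ℝ≥0 => ‖δ s x - δ s₀ x‖ ^ 2 := by
      simp only [hsq]
      have h2 : Continuous fun s : ℝ≥0 => T.op ((s₀ - s) + (s - s₀)) x :=
        (T.cont x).comp ((continuous_const.sub continuous_id).add (continuous_id.sub continuous_const))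
      have h3 : Continuous fun s : ℝ≥0 => ⟪x, T.op ((s₀ - s) + (s - s₀)) x⟫_ℂ :=
        continuous_const.inner h2
      exact continuous_const.sub (continuous_const.mul (Complex.continuous_re.comp h3))
    have h4 : Tendsto (fun s : ℝ≥0 => √(‖δ s x - δ s₀ x‖ ^ 2)) (𝓝 s₀) (𝓝 (√(‖δ s₀ x - δ s₀ x‖ ^ 2))) :=
      (h1.tendsto s₀).sqrt
    simp only [Real.sqrt_sq (norm_nonneg _)] at h4
    rw [sub_self, norm_zero] at h4
    exact h4
  -- strong continuity
  have hVc : ∀ k : K, Continuous fun r => V r k := by
    let W : Submodule ℂ K :=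
      { carrier := {k | Continuous fun r => V r k}
        add_mem' := by
          intro a b ha hb
          change Continuous fun r => V r (a + b)
          simp only [map_add]
          exact Continuous.add ha hb
        zero_mem' := by
          change Continuous fun r => V r 0
          simp only [map_zero]
          exact continuous_const
        smul_mem' := by
          intro c a ha
          change Continuous fun r => V r (c • a)
          simp only [map_smul]
          exact Continuous.const_smul ha c }
    have hle : Submodule.span ℂ (⋃ s, Set.range (δ s)) ≤ W := by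
      rw [Submodule.span_le]
      intro k hk
      rw [Set.mem_iUnion] at hk
      obtain ⟨s, x, rfl⟩ := hk
      change Continuous fun r => V r (δ s x)
      simp only [hVδ]
      exact (hδc x).comp (continuous_const.add continuous_id)
    intro k
    refine continuous_of_uniform_approx_of_continuous fun U hU => ?_
    obtain ⟨ε, hε, hεU⟩ := Metric.mem_uniformity_dist.1 hU
    obtain ⟨k', hk', hd⟩ := hdense.exists_dist_lt k hε
    refine ⟨fun r => V r k', hle hk', fun r => hεU ?_⟩
    rw [dist_eq_norm, ← map_sub, hV, ← dist_eq_norm]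
    exact hd
  -- separability
  have hsep : SeparableSpace K := by
    have h1 : Continuous fun p : H × ℝ≥0 => δ p.2 p.1 :=
      continuous_prod_of_continuous_lipschitzWith _ 1 (fun x => hδc x) (fun s => (δ s).lipschitz)
    have h2 : IsSeparable (Set.range fun p : H × ℝ≥0 => δ p.2 p.1) := isSeparable_range h1
    have h3 : (⋃ s, Set.range (δ s)) ⊆ Set.range fun p : H × ℝ≥0 => δ p.2 p.1 := by
      intro k hk
      rw [Set.mem_iUnion] at hk
      obtain ⟨s, x, rfl⟩ := hk
      exact ⟨(x, s), rfl⟩
    have h4 : IsSeparable (Submodule.span ℂ (⋃ s, Set.range (δ s)) : Set K) := (h2.mono h3).span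
    have h5 := h4.closure
    rw [hdense.closure_eq] at h5
    exact isSeparable_univ_iff.1 h5
  refine ⟨K, iK1, iK2, iK3, hsep, ⟨V, hV0, hVadd, hVc, fun r => ?_⟩, δ 0, fun r k => hV r k, ?_⟩
  · refine ContinuousLinearMap.opNorm_le_bound _ zero_le_one fun k => ?_
    rw [hV, one_mul]
  · intro r x y
    change ⟪V r (δ 0 x), δ 0 y⟫_ℂ = _
    rw [hVδ, zero_add, hker]
    unfold Pool.Agent.N821.CS.ker
    by_cases hr : r ≤ 0
    · have h0 : r = 0 := le_antisymm hr bot_le
      rw [if_pos hr, h0, tsub_zero, T.zero]
      rfl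
    · rw [if_neg hr, tsub_zero]

end Pool.Agent.N897.CS
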